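import Mathlib
import Pool.Agent.N251.GA.Leaves

/-!
# The octahedral map over rings with arithmetic data
-/

set_option autoImplicit false

namespace Pool.Agent.N575.GA.G4

open Pool.Agent.N251.GA

theorem hid {R : Type} [CommRing R] (X Z : R) :
    108 * (X * Z * (X ^ 4 - Z ^ 4)) ^ 4 +
      (X ^ 12 - 33 * X ^ 8 * Z ^ 4 - 33 * X ^ 4 * Z ^ 8 + Z ^ 12) ^ 2 =
      (X ^ 8 + 14 * X ^ 4 * Z ^ 4 + Z ^ 8) ^ 3 := by
  ring

theorem t : LeafG4 := by
  intro R _ D N hN hS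
  have := isDomain D
  have := charZero D
  apply near D (6 * N) (by omega)
  obtain ⟨C₁, hC₁, hlow⟩ := hom_lower (fun p => 108 * (p.1 * p.2 * (p.1 ^ 4 - p.2 ^ 4)) ^ 4)
    (fun p => (p.1 ^ 8 + 14 * p.1 ^ 4 * p.2 ^ 4 + p.2 ^ 8) ^ 3) (by fun_prop) (by fun_prop) 24
    (by norm_num)
    (fun t p => by simp only [Prod.smul_fst, Prod.smul_snd, smul_eq_mul]; ring)
    (fun t p => by simp only [Prod.smul_fst, Prod.smul_snd, smul_eq_mul]; ring)
    (by
      rintro ⟨x, y⟩ h1 h2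
      simp only at h1 h2
      have h3 : x * y * (x ^ 4 - y ^ 4) = 0 := by
        have := (mul_eq_zero.1 h1).resolve_left (by norm_num)
        exact pow_eq_zero_iff (by norm_num) |>.1 this
      have h4 : x ^ 8 + 14 * x ^ 4 * y ^ 4 + y ^ 8 = 0 := pow_eq_zero_iff (by norm_num) |>.1 h2
      have hy0 : y = 0 → x = 0 := by
        intro hy
        have h5 : x ^ 8 = 0 := by
          rw [hy] at h4
          linear_combination h4
        exact (pow_eq_zero_iff (by norm_num)).1 h5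
      rcases mul_eq_zero.1 h3 with h6 | h6
      · rcases mul_eq_zero.1 h6 with h7 | h7
        · have h8 : y ^ 8 = 0 := by
            rw [h7] at h4
            linear_combination h4
          rw [h7, (pow_eq_zero_iff (by norm_num)).1 h8]; rfl
        · rw [hy0 h7, h7]; rfl
      · have h8 : 16 * y ^ 8 = 0 := by
          linear_combination h4 - (x ^ 4 + 15 * y ^ 4) * h6
        have h9 : y ^ 8 = 0 := (mul_eq_zero.1 h8).resolve_left (by norm_num)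
        have h10 : y = 0 := (pow_eq_zero_iff (by norm_num)).1 h9
        rw [hy0 h10, h10]; rfl)
  obtain ⟨C₂, hC₂, hup⟩ := hom_upper (fun p => (p.1 + p.2) * (p.1 ^ 2 + p.2 ^ 2) *
    (p.1 ^ 12 - 33 * p.1 ^ 8 * p.2 ^ 4 - 33 * p.1 ^ 4 * p.2 ^ 8 + p.2 ^ 12) *
    (p.1 ^ 8 + 14 * p.1 ^ 4 * p.2 ^ 4 + p.2 ^ 8)) (by fun_prop) 23
    (fun t p => by simp only [Prod.smul_fst, Prod.smul_snd, smul_eq_mul]; ring)
  set K : ℝ := 1 + 2 ^ 24 * C₁ + C₂ with hK
  have hK1 : 1 ≤ K := by rw [hK]; nlinarith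
  refine transferTri D 24 23 K hK1 one_pos (by norm_num) ?_ hS
  rintro ⟨Z, Y, c⟩ ht hdvd
  obtain ⟨hab, hsum, ha, hb, hc⟩ := ht
  simp only at hab hsum ha hb hc hdvd
  right
  obtain ⟨X, hX⟩ : ∃ X : R, X = Z + Y := ⟨_, rfl⟩
  have hcX : c = -X := by rw [hX]; linear_combination hsum
  have hYX : Y = X - Z := by rw [hX]; ring
  have hX0 : X ≠ 0 := by
    intro h0
    rw [h0, neg_zero] at hcX
    exact hc hcX
  have hZX : IsCoprime Z X := by
    have h1 := hab.add_mul_left_right 1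
    have e : Y + Z * 1 = X := by rw [hX]; ring
    rwa [e] at h1
  obtain ⟨s, hs⟩ := hdvd
  push_cast at hs
  have h6Z : ((6 : ℕ) : R) ∣ Z := ⟨N * s, by rw [hs]; push_cast; ring⟩
  have hZu : ¬ IsUnit Z := not_unit_of_dvd D (by norm_num) h6Z
  -- the forms
  obtain ⟨v, hv⟩ : ∃ v : R, v = X * Z * (X ^ 4 - Z ^ 4) := ⟨_, rfl⟩
  obtain ⟨f, hf⟩ : ∃ f : R, f = X ^ 8 + 14 * X ^ 4 * Z ^ 4 + Z ^ 8 := ⟨_, rfl⟩
  obtain ⟨w, hw⟩ : ∃ w : R, w = X ^ 12 - 33 * X ^ 8 * Z ^ 4 - 33 * X ^ 4 * Z ^ 8 + Z ^ 12 := ⟨_, rfl⟩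
  have hvw : 108 * v ^ 4 + w ^ 2 = f ^ 3 := by rw [hv, hw, hf]; exact hid X Z
  have hvY : v = X * Z * (Y * ((X + Z) * (X ^ 2 + Z ^ 2))) := by rw [hv, hYX]; ring
  have hn1 : X + Z ≠ 0 := by
    intro h0
    apply hZu
    have h1 := hZX
    have e : X = -Z := by linear_combination h0
    rw [e, IsCoprime.neg_right_iff] at h1
    exact isCoprime_self.1 h1
  have hn2 : X ^ 2 + Z ^ 2 ≠ 0 := by
    intro h0
    apply hZu
    have h1 : IsCoprime (Z ^ 2) (X ^ 2) := hZX.pow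
    have e : X ^ 2 = -Z ^ 2 := by linear_combination h0
    rw [e, IsCoprime.neg_right_iff] at h1
    exact (isUnit_pow_iff (by norm_num)).1 (isCoprime_self.1 h1)
  have hv0 : v ≠ 0 := by
    rw [hvY]
    exact mul_ne_zero (mul_ne_zero hX0 ha) (mul_ne_zero hb (mul_ne_zero hn1 hn2))
  -- coprimality
  have hcop : IsCoprime (108 * v ^ 4) (w ^ 2) := by
    apply isCoprime_of_max
    intro P hPm h1 h3
    have hf3 : f ^ 3 ∈ P := by rw [← hvw]; exact P.add_mem h1 h3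
    have hfP : f ∈ P := hPm.isPrime.mem_of_pow_mem _ hf3
    have hZP : Z ∉ P := by
      intro hz
      have h4 : X ^ 8 ∈ P := by
        have e : X ^ 8 = f - Z * (14 * X ^ 4 * Z ^ 3 + Z ^ 7) := by rw [hf]; ring
        rw [e]
        exact P.sub_mem hfP (P.mul_mem_right _ hz)
      exact not_both hZX hPm hz (hPm.isPrime.mem_of_pow_mem _ h4)
    have h6P : (6 : R) ∉ P := by
      intro h6
      exact hZP (mem_of_dvd (by exact_mod_cast h6Z) h6)
    have hXP : X ∉ P := by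
      intro hx
      have h4 : Z ^ 8 ∈ P := by
        have e : Z ^ 8 = f - X * (X ^ 7 + 14 * X ^ 3 * Z ^ 4) := by rw [hf]; ring
        rw [e]
        exact P.sub_mem hfP (P.mul_mem_right _ hx)
      exact hZP (hPm.isPrime.mem_of_pow_mem _ h4)
    rcases hPm.isPrime.mem_or_mem h1 with h4 | h4
    · apply h6P
      have h5 : (6 : R) ^ 3 ∈ P := by
        have e : (6 : R) ^ 3 = 2 * 108 := by norm_num
        rw [e]
        exact P.mul_mem_left _ h4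
      exact hPm.isPrime.mem_of_pow_mem _ h5
    · have h5 : v ∈ P := hPm.isPrime.mem_of_pow_mem _ h4
      rw [hv] at h5
      rcases hPm.isPrime.mem_or_mem h5 with h6 | h6
      · rcases hPm.isPrime.mem_or_mem h6 with h7 | h7
        · exact hXP h7
        · exact hZP h7
      · have h7 : 2 ^ 4 * Z ^ 8 ∈ P := by
          have e : 2 ^ 4 * Z ^ 8 = f - (X ^ 4 - Z ^ 4) * (X ^ 4 + 15 * Z ^ 4) := by rw [hf]; ring
          rw [e]
          exact P.sub_mem hfP (P.mul_mem_right _ h6)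
        rcases hPm.isPrime.mem_or_mem h7 with h8 | h8
        · apply h6P
          have h9 : (2 : R) ∈ P := hPm.isPrime.mem_of_pow_mem _ h8
          have e : (6 : R) = 3 * 2 := by norm_num
          rw [e]
          exact P.mul_mem_left _ h9
        · exact hZP (hPm.isPrime.mem_of_pow_mem _ h8)
  have htri : Tri (108 * v ^ 4, w ^ 2, -f ^ 3) :=
    tri_of D hcop (by rw [hvw]; ring) (mul_ne_zero (by norm_num) (pow_ne_zero _ hv0)) (n := 108)
      (by norm_num) ⟨v ^ 4, by push_cast; ring⟩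
  have hw0 : w ≠ 0 := fun h0 => htri.2.2.2.1 (by simp only; rw [h0]; simp)
  have hf0 : f ≠ 0 := fun h0 => htri.2.2.2.2 (by simp only; rw [h0]; simp)
  have htri' : Tri (w ^ 2, -f ^ 3, 108 * v ^ 4) := by
    refine ⟨?_, ?_, pow_ne_zero _ hw0, htri.2.2.2.2, htri.2.2.1⟩
    · have h1 := (hcop.symm.neg_right).add_mul_left_right (-1)
      have e : -(108 * v ^ 4) + w ^ 2 * -1 = -f ^ 3 := by rw [← hvw]; ring
      rwa [e] at h1
    · simp only
      linear_combination hvw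
  -- local sizes
  have hloc : ∀ i, ht D (Z, Y, c) i ≤ 2 * ‖(D.σ i X, D.σ i Z)‖ := by
    intro i
    rw [Prod.norm_def]
    simp only [ht]
    have h1 := le_max_left ‖D.σ i X‖ ‖D.σ i Z‖
    have h3 := le_max_right ‖D.σ i X‖ ‖D.σ i Z‖
    have h4 : ‖D.σ i Y‖ ≤ ‖D.σ i X‖ + ‖D.σ i Z‖ := by
      rw [hYX, map_sub]; exact norm_sub_le _ _
    have h6 : ‖D.σ i c‖ = ‖D.σ i X‖ := by rw [hcX, map_neg, norm_neg]
    have h5 : 0 ≤ ‖D.σ i X‖ := norm_nonneg _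
    refine max_le (max_le ?_ ?_) ?_ <;> linarith
  have hnp : ∀ i, ‖(D.σ i X, D.σ i Z)‖ ≤ ht D (Z, Y, c) i := by
    intro i
    rw [Prod.norm_def]
    refine max_le ?_ (ht_ge1 D (Z, Y, c) i)
    have h6 : ‖D.σ i c‖ = ‖D.σ i X‖ := by rw [hcX, map_neg, norm_neg]
    rw [← h6]
    exact ht_ge3 D (Z, Y, c) i
  refine ⟨(w ^ 2, -f ^ 3, 108 * v ^ 4), ⟨htri', ⟨w, f, v, ?_, ?_, ?_⟩, Or.inr (Or.inr ?_)⟩, ?_,
    (X + Z) * (X ^ 2 + Z ^ 2) * w * f, ?_, ?_, 7, ?_⟩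
  · simp
  · simp
  · simp
  · simp only
    refine ⟨108 * (X * (6 * s) * (X ^ 4 - Z ^ 4)) * v ^ 3, ?_⟩
    have e : v = N * (X * (6 * s) * (X ^ 4 - Z ^ 4)) := by
      calc v = X * Z * (X ^ 4 - Z ^ 4) := hv
        _ = X * (6 * N * s) * (X ^ 4 - Z ^ 4) := by
            congr 2
        _ = _ := by ring
    calc 108 * v ^ 4 = 108 * v * v ^ 3 := by ring
      _ = 108 * (N * (X * (6 * s) * (X ^ 4 - Z ^ 4))) * v ^ 3 := by rw [← e]
      _ = _ := by ring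
  · intro i
    have h1 := hlow (D.σ i X, D.σ i Z)
    simp only at h1
    have h3 : max ‖108 * (D.σ i X * D.σ i Z * (D.σ i X ^ 4 - D.σ i Z ^ 4)) ^ 4‖
        ‖(D.σ i X ^ 8 + 14 * D.σ i X ^ 4 * D.σ i Z ^ 4 + D.σ i Z ^ 8) ^ 3‖ ≤
        ht D (w ^ 2, -f ^ 3, 108 * v ^ 4) i := by
      apply max_le
      · refine le_trans (le_of_eq ?_) (ht_ge3 D _ i)
        simp only [hv, map_mul, map_pow, map_sub, map_ofNat]
      · refine le_trans (le_of_eq ?_) (ht_ge2 D _ i)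
        simp only [map_neg, norm_neg, hf, map_pow, map_add, map_mul, map_ofNat]
    calc ht D (Z, Y, c) i ^ 24 ≤ (2 * ‖(D.σ i X, D.σ i Z)‖) ^ 24 :=
          pow_le_pow_left₀ (ht_nonneg D _ i) (hloc i) 24
      _ = 2 ^ 24 * ‖(D.σ i X, D.σ i Z)‖ ^ 24 := mul_pow _ _ _
      _ ≤ 2 ^ 24 * (C₁ * ht D (w ^ 2, -f ^ 3, 108 * v ^ 4) i) := by
          apply mul_le_mul_of_nonneg_left _ (by norm_num)
          exact h1.trans (mul_le_mul_of_nonneg_left h3 hC₁.le)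
      _ = 2 ^ 24 * C₁ * ht D (w ^ 2, -f ^ 3, 108 * v ^ 4) i := by ring
      _ ≤ _ := mul_le_mul_of_nonneg_right (by rw [hK]; linarith) (ht_nonneg D _ i)
  · exact mul_ne_zero (mul_ne_zero (mul_ne_zero hn1 hn2) hw0) hf0
  · intro i
    have h1 := hup (D.σ i X, D.σ i Z)
    have e1 : D.σ i ((X + Z) * (X ^ 2 + Z ^ 2) * w * f) = (D.σ i X + D.σ i Z) *
        (D.σ i X ^ 2 + D.σ i Z ^ 2) * (D.σ i X ^ 12 - 33 * D.σ i X ^ 8 * D.σ i Z ^ 4 -
          33 * D.σ i X ^ 4 * D.σ i Z ^ 8 + D.σ i Z ^ 12) *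
        (D.σ i X ^ 8 + 14 * D.σ i X ^ 4 * D.σ i Z ^ 4 + D.σ i Z ^ 8) := by
      simp only [hw, hf, map_mul, map_sub, map_add, map_pow, map_ofNat]
    rw [e1]
    calc _ ≤ C₂ * ‖(D.σ i X, D.σ i Z)‖ ^ 23 := h1
      _ ≤ C₂ * ht D (Z, Y, c) i ^ 23 := by
          apply mul_le_mul_of_nonneg_left _ hC₂.le
          exact pow_le_pow_left₀ (norm_nonneg _) (hnp i) 23
      _ ≤ _ := mul_le_mul_of_nonneg_right (by rw [hK]; nlinarith) (pow_nonneg (ht_nonneg D _ i) _)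
  · simp only
    refine ⟨2 * (X * (N * s) * (X ^ 4 - Z ^ 4)) ^ 3 * w ^ 5 * f ^ 4, ?_⟩
    obtain ⟨q, hq⟩ : ∃ q : R, q = X * (N * s) * (X ^ 4 - Z ^ 4) := ⟨_, rfl⟩
    have e : v = 6 * q := by
      calc v = X * Z * (X ^ 4 - Z ^ 4) := hv
        _ = X * (6 * N * s) * (X ^ 4 - Z ^ 4) := by
            congr 2
        _ = _ := by rw [hq]; ring
    have e2 : Z * Y * c * ((X + Z) * (X ^ 2 + Z ^ 2) * w * f) = -(v * w * f) := by
      rw [hvY, hcX]; ring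
    rw [e2, ← hq, e]
    ring

end Pool.Agent.N575.GA.G4
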